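import Pool.Agent.Helper46.DC.Defs

/-!
DC-6: the chains of the Sperner argument.
-/

set_option autoImplicit false

namespace Pool.Agent.DC

open Finset

namespace ChainsAux

theorem D_sum {α β : Type} (K : Cx α) (s : Finset β) (f : β → α → ZMod 2) :
    K.D (∑ b ∈ s, f b) = ∑ b ∈ s, K.D (f b) :=
  map_sum (AddMonoidHom.mk' K.D K.D_add) f s

theorem add_self {α : Type} (f : α → ZMod 2) : f + f = 0 := by
  funext a
  exact CharTwo.add_self_eq_zero (f a)

theorem sum_erase {α ι : Type} [DecidableEq ι] (f : Finset ι → α → ZMod 2) (J : Finset ι) :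
    ∑ j ∈ J, ∑ i ∈ J.erase j, f ((J.erase j).erase i) = 0 := by
  rw [Finset.sum_sigma']
  refine Finset.sum_involution (fun p _ => ⟨p.2, p.1⟩) ?_ ?_ ?_ ?_
  · rintro ⟨j, i⟩ _
    simp only
    rw [Finset.erase_right_comm]
    exact add_self _
  · rintro ⟨j, i⟩ h _ h'
    rw [Finset.mem_sigma, Finset.mem_erase] at h
    simp only [Sigma.mk.injEq, heq_eq_eq] at h'
    exact h.2.1 h'.1
  · rintro ⟨j, i⟩ h
    rw [Finset.mem_sigma, Finset.mem_erase] at h ⊢
    exact ⟨h.2.2, fun h' => h.2.1 h'.symm, h.1⟩
  · rintro ⟨j, i⟩ _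
    rfl

theorem ch_sum {α β : Type} {K : Cx α} {S : Set α} {n : ℕ} {s : Finset β}
    {f : β → α → ZMod 2} (h : ∀ b ∈ s, Ch K S n (f b)) : Ch K S n (∑ b ∈ s, f b) := by
  intro a ha
  rw [Finset.sum_apply] at ha
  obtain ⟨b, hb, hb'⟩ := Finset.exists_ne_zero_of_sum_ne_zero ha
  exact h b hb a hb'

theorem exists_aux {α ι : Type} [Fintype ι] [DecidableEq ι] (K : Cx α) (bot : α)
    (X : Finset ι → Set α) (hmono : ∀ J J', J ⊆ J' → X J ⊆ X J') (hbot : K.deg bot = 0)
    (hbotX : bot ∈ X ∅) (hac : ∀ J : Finset ι, J.Nonempty → RelAc K J.card (X J) ∅) (n : ℕ) :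
    ∃ c : Finset ι → α → ZMod 2, (∀ J, J.card ≤ n → Ch K (X J) J.card (c J)) ∧ c ∅ bot = 1 ∧
      ∀ J : Finset ι, J.card ≤ n → J.Nonempty → K.D (c J) = ∑ j ∈ J, c (J.erase j) := by
  classical
  induction n with
  | zero =>
    refine ⟨fun _ => Pi.single bot 1, fun J hJ a ha => ?_, by simp, fun J hJ hne => ?_⟩
    · have hJ0 : J = ∅ := Finset.card_eq_zero.1 (Nat.le_zero.1 hJ)
      subst hJ0
      have : a = bot := by
        by_contra hne
        exact ha (Pi.single_eq_of_ne hne _)
      subst this
      exact ⟨hbotX, hbot⟩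
    · have hJ0 : J = ∅ := Finset.card_eq_zero.1 (Nat.le_zero.1 hJ)
      exact absurd hJ0 hne.ne_empty
  | succ n ih =>
    obtain ⟨c, hc, hc0, hcD⟩ := ih
    have key : ∀ J : Finset ι, ∃ w : α → ZMod 2, J.card = n + 1 →
        Ch K (X J) (n + 1) w ∧ K.D w = ∑ j ∈ J, c (J.erase j) := by
      intro J
      by_cases hJ : J.card = n + 1
      · have hne : J.Nonempty := by
          rw [← Finset.card_pos]
          omega
        have hcard : ∀ j ∈ J, (J.erase j).card = n := by
          intro j hj
          rw [Finset.card_erase_of_mem hj]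
          omega
        have hz : Ch K (X J) n (∑ j ∈ J, c (J.erase j)) := by
          apply ch_sum
          intro j hj a ha
          have h1 := hc (J.erase j) (by rw [hcard j hj]) a ha
          rw [hcard j hj] at h1
          exact ⟨hmono _ _ (Finset.erase_subset _ _) h1.1, h1.2⟩
        have hDz : K.D (∑ j ∈ J, c (J.erase j)) = 0 := by
          rcases Nat.eq_zero_or_pos n with h0 | hpos
          · subst h0
            exact K.D_zero _ fun a ha => (hz a ha).2
          · rw [D_sum]
            rw [← sum_erase c J]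
            refine Finset.sum_congr rfl fun j hj => ?_
            apply hcD
            · rw [hcard j hj]
            · rw [← Finset.card_pos, hcard j hj]
              exact hpos
        obtain ⟨w, a', hw, ha', hwa⟩ := hac J hne n (by omega) _ hz (by
          intro a ha
          rw [hDz] at ha
          exact absurd rfl ha)
        have ha0 : a' = 0 := by
          funext a
          by_contra h
          exact (ha' a h).1
        refine ⟨w, fun _ => ⟨hw, ?_⟩⟩
        rw [hwa, ha0, add_zero]
      · exact ⟨0, fun h => absurd h hJ⟩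
    choose w hw using key
    refine ⟨fun J => if J.card ≤ n then c J else w J, fun J hJ => ?_, ?_, fun J hJ hne => ?_⟩
    · by_cases h : J.card ≤ n
      · simp only [h, if_true]
        exact hc J h
      · simp only [h, if_false]
        have h1 : J.card = n + 1 := by omega
        rw [h1]
        exact (hw J h1).1
    · simp only [Finset.card_empty, Nat.zero_le, if_true]
      exact hc0
    · have h2 : ∀ j ∈ J, (if (J.erase j).card ≤ n then c (J.erase j) else w (J.erase j)) =
          c (J.erase j) := by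
        intro j hj
        rw [if_pos]
        rw [Finset.card_erase_of_mem hj]
        omega
      rw [Finset.sum_congr rfl h2]
      by_cases h : J.card ≤ n
      · simp only [h, if_true]
        exact hcD J h hne
      · simp only [h, if_false]
        exact (hw J (by omega)).2

end ChainsAux

theorem exists_chains {α ι : Type} [Fintype ι] [DecidableEq ι] (K : Cx α) (bot : α)
    (X : Finset ι → Set α) (hmono : ∀ J J', J ⊆ J' → X J ⊆ X J') (hbot : K.deg bot = 0)
    (hbotX : bot ∈ X ∅) (hac : ∀ J : Finset ι, J.Nonempty → RelAc K J.card (X J) ∅) :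
    ∃ c : Finset ι → α → ZMod 2, (∀ J, Ch K (X J) J.card (c J)) ∧ c ∅ bot = 1 ∧
      ∀ J : Finset ι, J.Nonempty → K.D (c J) = ∑ j ∈ J, c (J.erase j) := by
  obtain ⟨c, h1, h2, h3⟩ := ChainsAux.exists_aux K bot X hmono hbot hbotX hac (Fintype.card ι)
  exact ⟨c, fun J => h1 J (Finset.card_le_univ J), h2, fun J => h3 J (Finset.card_le_univ J)⟩

end Pool.Agent.DC
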